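import Pool.Agent.helper56.P2B.SpecP

/-! p2b:AUA: automorphisms of the disc. -/

set_option autoImplicit false

open Complex Metric Set Filter Topology MeasureTheory
open Pool.Agent.helper98.ILF
open WP (it)
open HY (UD T S hd UN RM)
open PM
open PL (TP LO PZ GJ INR PG DK ht tr DI CY SUBH hG hq BJ)
open P2 (SS FLS FL CLS FR TL)

noncomputable section

namespace P2B

/-- the unit disc is a disc domain. -/
theorem AUA_DD (hMOB : HY.MOB_stmt) : DD UD := by
  intro a ha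
  obtain ⟨h1, h2, h3, h4, h5, h6, h7, -⟩ := hMOB a ha
  refine ⟨S a, h5, h7, ?_, h3⟩
  ext y
  constructor
  · rintro ⟨x, hx, rfl⟩
    exact (h1 x hx).2.1
  · intro hy
    exact ⟨T a y, (h1 y hy).1, (h1 y hy).2.2.1⟩

theorem AUA (hTPM : PM.TPM_stmt) (hMOB : HY.MOB_stmt) : AUA_stmt := by
  intro B hBd hB
  have hop : IsOpen UD := isOpen_ball
  have h0 : (0 : ℂ) ∈ UD := by simp [UD]
  have hDD := AUA_DD hMOB
  obtain ⟨c, hc, hc0⟩ := hB.surjOn h0
  have hcn : ‖c‖ < 1 := by simpa [UD] using hc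
  obtain ⟨h1, h2, h3, h4, h5, h6, h7, -⟩ := hMOB c hc
  set g : ℂ → ℂ := fun u => B (S c u) with hg
  have hgd : DifferentiableOn ℂ g UD := hBd.comp h5 (fun u hu => (h1 u hu).2.1)
  have hgm : MapsTo g UD UD := fun u hu => hB.mapsTo (h1 u hu).2.1
  have hg0 : g 0 = 0 := by rw [hg]; show B (S c 0) = 0; rw [h3, hc0]
  have hgi : InjOn g UD := fun u hu v hv huv => h7 hu hv (hB.injOn (h1 u hu).2.1 (h1 v hv).2.1 huv)
  have hgr : RM UD 0 g := by
    refine ⟨hgd, hgi, ?_, hg0⟩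
    ext y
    constructor
    · rintro ⟨x, hx, rfl⟩
      exact hgm hx
    · intro hy
      obtain ⟨z, hz, hzy⟩ := hB.surjOn hy
      refine ⟨T c z, (h1 z hz).1, ?_⟩
      show B (S c (T c z)) = y
      rw [(h1 z hz).2.2.1, hzy]
  have hid : RM UD 0 (fun z => z) := ⟨differentiableOn_id, fun u _ v _ h => h, by simp, rfl⟩
  -- ‖g u‖ = ‖u‖
  have hn : ∀ u ∈ UD, ‖g u‖ = ‖u‖ := by
    intro u hu
    have e1 := ((hTPM UD 0 g hgr).2 0 h0).2 u hu
    have e2 := ((hTPM UD 0 (fun z => z) hid).2 0 h0).2 (g u) (hgm hu)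
    rw [hg0] at e1
    rw [e1] at e2
    simpa [T] using e2.symm
  -- g u = θ u
  have hmc : MapsTo g (ball 0 1) (closedBall (g 0) 1) := by
    intro u hu
    rw [hg0]
    exact ball_subset_closedBall (hgm hu)
  have hhalf : (1 / 2 : ℂ) ∈ ball (0 : ℂ) 1 := by
    rw [mem_ball_zero_iff]
    norm_num
  have hds : ‖dslope g 0 (1 / 2)‖ = 1 / 1 := by
    rw [dslope_of_ne _ (by norm_num), slope_def_field, hg0, norm_div]
    rw [sub_zero, sub_zero, hn _ hhalf]
    norm_num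
  have haff := Complex.affine_of_mapsTo_ball_of_norm_dslope_eq_div (f := g) (c := 0) (R₁ := 1) (R₂ := 1) hgd hmc hhalf hds
  set θ : ℂ := dslope g 0 (1 / 2) with hθ
  have hθn : ‖θ‖ = 1 := by rw [hds]; norm_num
  obtain ⟨κ, hκ⟩ : ∃ κ : ℂ, κ ^ 2 = θ := by
    obtain ⟨κ, hκ⟩ := IsAlgClosed.exists_pow_nat_eq θ (n := 2) (by norm_num)
    exact ⟨κ, hκ⟩
  have hκn : ‖κ‖ = 1 := by
    have : ‖κ‖ ^ 2 = 1 := by rw [← norm_pow, hκ, hθn]
    nlinarith [norm_nonneg κ]
  have hκc : (starRingEnd ℂ) κ * κ = 1 := by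
    rw [mul_comm, Complex.mul_conj, Complex.normSq_eq_norm_sq, hκn]
    norm_num
  have hκ0 : κ ≠ 0 := by
    intro h
    rw [h, norm_zero] at hκn
    exact zero_ne_one hκn
  have hs2 : 0 < 1 - ‖c‖ ^ 2 := by nlinarith [norm_nonneg c]
  set s : ℝ := Real.sqrt (1 - ‖c‖ ^ 2) with hs
  have hs0 : 0 < s := Real.sqrt_pos.mpr hs2
  have hss : s ^ 2 = 1 - ‖c‖ ^ 2 := Real.sq_sqrt hs2.le
  have hsC : (s : ℂ) ≠ 0 := by exact_mod_cast hs0.ne'
  refine ⟨κ / s, -κ * c / s, ?_, ?_⟩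
  · have e1 : ‖κ / (s : ℂ)‖ = 1 / s := by
      rw [norm_div, hκn, Complex.norm_real, Real.norm_of_nonneg hs0.le]
    have e2 : ‖-κ * c / (s : ℂ)‖ = ‖c‖ / s := by
      rw [norm_div, norm_mul, norm_neg, hκn, Complex.norm_real, Real.norm_of_nonneg hs0.le, one_mul]
    rw [e1, e2, div_pow, div_pow, hss]
    field_simp
  · intro z hz
    have hzn : ‖z‖ < 1 := by simpa [UD] using hz
    have hden : 1 - (starRingEnd ℂ) c * z ≠ 0 := by
      intro h
      have h' : (starRingEnd ℂ) c * z = 1 := (sub_eq_zero.mp h).symm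
      have h'' : ‖(starRingEnd ℂ) c * z‖ = 1 := by rw [h', norm_one]
      rw [norm_mul, Complex.norm_conj] at h''
      nlinarith [norm_nonneg c, norm_nonneg z]
    have hκb : (starRingEnd ℂ) κ ≠ 0 := by
      intro h
      rw [h, zero_mul] at hκc
      exact zero_ne_one hκc
    have e1 : (starRingEnd ℂ) (-κ * c / s) * z + (starRingEnd ℂ) (κ / s) = (starRingEnd ℂ) κ * (1 - (starRingEnd ℂ) c * z) / s := by
      rw [map_div₀, map_div₀, map_mul, map_neg, Complex.conj_ofReal]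
      field_simp
      ring
    have hne : (starRingEnd ℂ) (-κ * c / s) * z + (starRingEnd ℂ) (κ / s) ≠ 0 := by
      rw [e1]
      exact div_ne_zero (mul_ne_zero hκb hden) hsC
    refine ⟨hne, ?_⟩
    have e2 : B z = θ * T c z := by
      have : g (T c z) = 0 + (T c z - 0) • θ := by
        rw [haff (h1 z hz).1, hg0]
      rw [zero_add, sub_zero, smul_eq_mul, mul_comm] at this
      rw [← this]
      show B z = B (S c (T c z))
      rw [(h1 z hz).2.2.1]
    rw [eq_div_iff hne, e1, e2, T, ← hκ]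
    have e3 : κ ^ 2 * ((z - c) / (1 - (starRingEnd ℂ) c * z)) * ((starRingEnd ℂ) κ * (1 - (starRingEnd ℂ) c * z) / s) =
        ((starRingEnd ℂ) κ * κ) * (κ * (z - c) / s) := by
      rw [show κ ^ 2 * ((z - c) / (1 - (starRingEnd ℂ) c * z)) * ((starRingEnd ℂ) κ * (1 - (starRingEnd ℂ) c * z) / s) =
        κ ^ 2 * (z - c) * (starRingEnd ℂ) κ / s * ((1 - (starRingEnd ℂ) c * z) / (1 - (starRingEnd ℂ) c * z)) by ring, div_self hden]
      ring
    rw [e3, hκc]
    ring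

end P2B

end
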